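import Pool.Agent.W819.EN.Stm

/-!
# Exponential tails of sums of independent costs (helper554, subtask EN-SUM of helper819)
-/

set_option autoImplicit false

namespace Pool.Agent.W554.EN2

open H974 Finset Pool.Agent.W819.EN

lemma ok_half : Ok (P2 : Edg → ℝ) := fun _ => by
  constructor <;> norm_num [P2]

/-- one cost -/
lemma single {U : Finset Edg} {X : Finset Edg → ℕ} {q l : ℝ} (hq : 0 ≤ q) (hl : 1 ≤ l)
    (hlq : l * q < 1) (h : ∀ j : ℕ, Pr P2 U (fun F => j < X F) ≤ q ^ (j + 1)) :
    Ex P2 U (fun F => l ^ X F) ≤ 1 / (1 - l * q) := by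
  set B : ℕ := U.powerset.sup X with hB
  have hXB : ∀ F, F ⊆ U → X F ≤ B := fun F hF => le_sup (mem_powerset.2 hF)
  have h1 : ∀ F, F ⊆ U → l ^ X F = ∑ j ∈ range (B + 1), l ^ j * ind (X F = j) := by
    intro F hF
    rw [sum_eq_single (X F)]
    · rw [ind_of rfl, mul_one]
    · intro j _ hj
      rw [ind_not_of hj.symm, mul_zero]
    · intro hn
      exact absurd (mem_range.2 (Nat.lt_succ_of_le (hXB F hF))) hn
  rw [Ex_congr h1, Ex_sum]
  have h2 : ∀ j ∈ range (B + 1), Ex P2 U (fun F => l ^ j * ind (X F = j)) ≤ (l * q) ^ j := by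
    intro j _
    rw [Ex_mul_left, mul_pow]
    refine mul_le_mul_of_nonneg_left ?_ (by positivity)
    rcases j with _ | j
    · rw [pow_zero]
      exact Pr_le_one ok_half U _
    · refine le_trans ?_ (h j)
      exact Pr_mono ok_half fun F _ hF => by omega
  refine (sum_le_sum h2).trans ?_
  have h0 : 0 ≤ l * q := by positivity
  have h3 := (summable_geometric_of_lt_one h0 hlq).sum_le_tsum (range (B + 1))
    (fun j _ => pow_nonneg h0 j)
  rw [tsum_geometric_of_lt_one h0 hlq] at h3
  rwa [one_div]

lemma prod_bound {U : Finset Edg} {T : ℕ → Finset Edg} {X : ℕ → Finset Edg → ℕ} {q l : ℝ}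
    (hq : 0 ≤ q) (hl : 1 ≤ l) (hlq : l * q < 1) : ∀ M : ℕ, (∀ i < M, T i ⊆ U) →
    (∀ i < M, ∀ j < M, i ≠ j → Disjoint (T i) (T j)) →
    (∀ i < M, ∀ F, F ⊆ U → X i F = X i (F ∩ T i)) →
    (∀ i < M, ∀ j : ℕ, Pr P2 U (fun F => j < X i F) ≤ q ^ (j + 1)) →
    Ex P2 U (fun F => l ^ (∑ i ∈ range M, X i F)) ≤ (1 / (1 - l * q)) ^ M := by
  intro M
  induction M with
  | zero =>
    intro _ _ _ _
    simp only [range_zero, sum_empty, pow_zero]
    rw [Ex_const]
  | succ M ih =>
    intro hT hd hX hP
    have ih' := ih (fun i hi => hT i (by omega)) (fun i hi j hj => hd i (by omega) j (by omega))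
      (fun i hi => hX i (by omega)) (fun i hi => hP i (by omega))
    have h1 : Ex P2 U (fun F => l ^ (∑ i ∈ range (M + 1), X i F)) =
        Ex P2 U (fun F => l ^ (∑ i ∈ range M, X i F) * l ^ (X M F)) :=
      Ex_congr fun F _ => by rw [sum_range_succ, pow_add]
    rw [h1, Ex_mul_indep (S := (range M).biUnion T) (T := T M)]
    · rw [pow_succ]
      have h2 := single hq hl hlq (hP M (by omega))
      have h3 : 0 ≤ Ex P2 U (fun F => l ^ (X M F)) :=
        Ex_nonneg ok_half fun F _ => by positivity
      have h4 : 0 ≤ (1 / (1 - l * q)) ^ M := by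
        have : 0 < 1 - l * q := by linarith
        positivity
      exact mul_le_mul ih' h2 h3 h4
    · intro e he
      obtain ⟨i, hi, he'⟩ := mem_biUnion.1 he
      have := mem_range.1 hi
      exact hT i (by omega) he'
    · exact hT M (by omega)
    · rw [disjoint_biUnion_left]
      intro i hi
      have := mem_range.1 hi
      exact hd i (by omega) M (by omega) (by omega)
    · intro F hF
      congr 1
      refine sum_congr rfl fun i hi => ?_
      have hi' := mem_range.1 hi
      rw [hX i (by omega) F hF, hX i (by omega) (F ∩ (range M).biUnion T)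
        (inter_subset_left.trans hF), inter_assoc]
      congr 2
      rw [inter_eq_right.2]
      exact subset_biUnion_of_mem T hi
    · intro F hF
      rw [hX M (by omega) F hF, hX M (by omega) (F ∩ T M) (inter_subset_left.trans hF),
        inter_assoc, inter_self]

theorem t_SUM : SumTail := by
  intro U M T X q l hq hl hlq hT hd hX hP k
  have h1 := prod_bound hq hl hlq M hT hd hX hP
  have hl0 : 0 < l := by linarith
  calc Pr P2 U (fun F => k ≤ ∑ i ∈ range M, X i F)
      ≤ Ex P2 U (fun F => l ^ (∑ i ∈ range M, X i F) * (1 / l) ^ k) := by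
        refine Ex_mono ok_half fun F _ => ?_
        by_cases h : k ≤ ∑ i ∈ range M, X i F
        · rw [ind_of h]
          have h2 : l ^ k ≤ l ^ (∑ i ∈ range M, X i F) := pow_le_pow_right₀ hl h
          rw [one_div, inv_pow, ← div_eq_mul_inv, one_le_div (by positivity)]
          exact h2
        · rw [ind_not_of h]
          positivity
    _ = Ex P2 U (fun F => l ^ (∑ i ∈ range M, X i F)) * (1 / l) ^ k := Ex_mul_right _ _ _ _
    _ ≤ (1 / (1 - l * q)) ^ M * (1 / l) ^ k := by gcongr

end Pool.Agent.W554.EN2
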